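import Pool.Agent.Helper86.QA.St4

/-!
# Project QD, part A, module KCP: compactness modulo the group
-/

set_option autoImplicit false

open MeasureTheory Matrix Set Topology Filter
open scoped ENNReal ComplexConjugate ComplexOrder

namespace Pool.Agent.Helper95.QA

open Pool.Agent.Helper86.QA Pool.Agent.Helper20
open Pool.Agent.Helper35.PM (hs IsDiscrete ConvexCocompact IsQF limitSet density ent num classes
  SurfaceGroup)
open Pool.Agent.Helper20.QD (Fuch Good OutSide OneSide Lam inn out Qp Qinf sph act orb fr IsSU CC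
  mob Param)

/-- The normalised matrix of a point of the closed upper half space. -/
private noncomputable def Pc (x : Pt) : Mat :=
  ((1 + ‖x.1‖ ^ 2 + x.2 ^ 2 : ℝ) : ℂ)⁻¹ •
    !![((‖x.1‖ ^ 2 + x.2 ^ 2 : ℝ) : ℂ), x.1; conj x.1, 1]

private theorem pc_pos (x : Pt) : 0 < 1 + ‖x.1‖ ^ 2 + x.2 ^ 2 := by positivity

private theorem pc_cont : Continuous Pc := by
  have h1 : Continuous fun x : Pt => ((1 + ‖x.1‖ ^ 2 + x.2 ^ 2 : ℝ) : ℂ)⁻¹ := by
    apply Continuous.inv₀
    · fun_prop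
    · intro x
      exact_mod_cast (pc_pos x).ne'
  apply Continuous.smul h1
  apply continuous_matrix
  intro i j
  fin_cases i <;> fin_cases j
  · change Continuous fun x : Pt => ((‖x.1‖ ^ 2 + x.2 ^ 2 : ℝ) : ℂ)
    fun_prop
  · change Continuous fun x : Pt => x.1
    fun_prop
  · change Continuous fun x : Pt => conj x.1
    exact Complex.continuous_conj.comp continuous_fst
  · change Continuous fun _ : Pt => (1 : ℂ)
    fun_prop

private theorem pc_zero (z : ℂ) : Pc (z, 0) = Qp z := by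
  unfold Pc Qp
  simp

private theorem pc_11 (x : Pt) : Pc x 1 1 = ((1 + ‖x.1‖ ^ 2 + x.2 ^ 2 : ℝ) : ℂ)⁻¹ := by
  simp [Pc]

private theorem trace_Xm (x : Pt) (hx : x ∈ up) :
    (Xm x).trace = (((1 + ‖x.1‖ ^ 2 + x.2 ^ 2) / x.2 : ℝ) : ℂ) := by
  have hx0 : 0 < x.2 := hx
  have h1 : (x.2 : ℂ) ≠ 0 := by exact_mod_cast hx0.ne'
  simp only [Xm, Matrix.trace_fin_two_of]
  push_cast
  field_simp
  ring

private theorem pc_eq (x : Pt) (hx : x ∈ up) : Pc x = density (Xm x) := by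
  have hx0 : 0 < x.2 := hx
  have h1 : (x.2 : ℂ) ≠ 0 := by exact_mod_cast hx0.ne'
  have h2 : ((1 + ‖x.1‖ ^ 2 + x.2 ^ 2 : ℝ) : ℂ) ≠ 0 := by exact_mod_cast (pc_pos x).ne'
  unfold density
  rw [trace_Xm x hx]
  unfold Pc Xm
  push_cast at h2 ⊢
  ext i j
  fin_cases i <;> fin_cases j <;> simp <;> field_simp

private theorem density_smul (c : ℂ) (hc : c ≠ 0) (X : Mat) : density (c • X) = density X := by
  unfold density
  rw [Matrix.trace_smul, smul_eq_mul, mul_inv, smul_smul]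
  congr 1
  field_simp

private theorem xm_gx (x : Pt) (hx : x ∈ up) :
    Xm x = (gx x hx : Mat) * (gx x hx : Mat)ᴴ := by
  have hx0 : 0 < x.2 := hx
  have hs : Real.sqrt x.2 ^ 2 = x.2 := Real.sq_sqrt hx0.le
  have hs0 : 0 < Real.sqrt x.2 := Real.sqrt_pos.2 hx0
  have h1 : (x.2 : ℂ) ≠ 0 := by exact_mod_cast hx0.ne'
  have h2 : ((Real.sqrt x.2 : ℝ) : ℂ) ≠ 0 := by exact_mod_cast hs0.ne'
  have h3 : ((Real.sqrt x.2 : ℝ) : ℂ) ^ 2 = (x.2 : ℂ) := by exact_mod_cast hs
  have h4 : x.1 * conj x.1 = ((‖x.1‖ ^ 2 : ℝ) : ℂ) := by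
    rw [Complex.mul_conj']
    push_cast
    rfl
  unfold Xm gx
  ext i j
  fin_cases i <;> fin_cases j
  · simp [Matrix.mul_apply, Fin.sum_univ_two]
    push_cast at h4
    field_simp
    rw [← h4]
    linear_combination (x.1 * conj x.1 - (x.2 : ℂ) * ((Real.sqrt x.2 : ℝ) : ℂ) ^ 2) * h3
  · simp [Matrix.mul_apply, Fin.sum_univ_two]
    field_simp
    rw [h3]
  · simp [Matrix.mul_apply, Fin.sum_univ_two]
    field_simp
    rw [h3]
  · simp [Matrix.mul_apply, Fin.sum_univ_two]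
    field_simp
    rw [h3]

private theorem pc_pd (hLMX : QD.StLMX) (x : Pt) (hx : x ∈ up) :
    (Pc x).PosDef ∧ (Pc x).trace = 1 := by
  obtain ⟨_, _, _, h4, _, _⟩ := hLMX
  have h := h4 (gx x hx)
  rw [pc_eq x hx, xm_gx x hx]
  exact ⟨h.1, h.2.1⟩

private theorem pc_act (hACT : StACT) (g : SL) (x : Pt) (hx : x ∈ up) :
    act g (Pc x) = Pc (ga g x) := by
  obtain ⟨_, h2, h3⟩ := hACT.1 g x hx
  have hx0 : 0 < x.2 := hx
  rw [pc_eq (ga g x) h2, h3, pc_eq x hx]
  unfold act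
  have hc : ((Xm x).trace)⁻¹ ≠ 0 := by
    rw [trace_Xm x hx]
    apply inv_ne_zero
    have : 0 < (1 + ‖x.1‖ ^ 2 + x.2 ^ 2) / x.2 := div_pos (pc_pos x) hx0
    exact_mod_cast this.ne'
  have e : (g : Mat) * density (Xm x) * (g : Mat)ᴴ =
      ((Xm x).trace)⁻¹ • ((g : Mat) * Xm x * (g : Mat)ᴴ) := by
    unfold density
    rw [Matrix.mul_smul, Matrix.smul_mul]
  rw [e]
  exact density_smul _ hc _

private theorem psd_qinf (P : Mat) (h : P.PosSemidef) (ht : P.trace = 1) (h0 : P 1 1 = 0) :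
    P = Qinf := by
  have hH := h.1
  have h10 : P 1 0 = conj (P 0 1) := by
    have := congrFun (congrFun hH 1) 0
    rw [Matrix.conjTranspose_apply] at this
    exact this.symm
  have hd := h.det_nonneg
  rw [Matrix.det_fin_two, h0, mul_zero, zero_sub, h10, Complex.mul_conj'] at hd
  have h1 : (0 : ℝ) ≤ -(‖P 0 1‖ ^ 2) := by
    have : (0 : ℂ) ≤ ((-(‖P 0 1‖ ^ 2) : ℝ) : ℂ) := by
      push_cast
      exact hd
    exact_mod_cast this
  have h2 : ‖P 0 1‖ = 0 := by
    have := sq_nonneg ‖P 0 1‖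
    nlinarith [norm_nonneg (P 0 1)]
  have h01 : P 0 1 = 0 := norm_eq_zero.1 h2
  rw [Matrix.trace_fin_two, h0, add_zero] at ht
  ext i j
  fin_cases i <;> fin_cases j
  · exact ht
  · exact h01
  · change P 1 0 = 0
    rw [h10, h01, map_zero]
  · exact h0

theorem hKCP (hACT : StACT) (hLQC : QD.StLQC) (hLMX : QD.StLMX) (_hLLS : QD.StLLS)
    (hCNC : StCNC) (hDRC : StDRC) : StKCP := by
  intro Γ _ ρ A B hCC hA hB hAB hinf hdis hsph
  obtain ⟨hDc, hDex, hDdis⟩ := hDRC Γ ρ hCC.discrete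
  have hdj := hDdis (hCNC Γ ρ hCC)
  obtain ⟨_, _, q3, _, _, _, q7, _, _, _, _⟩ := hLQC
  -- the compact set
  set T : Set Pt := {x | 0 ≤ x.2 ∧ Pc x ∈ Dir ρ} with hT
  have hTc : IsClosed T :=
    (isClosed_le continuous_const continuous_snd).inter (hDc.isClosed.preimage pc_cont)
  have h11 : ∀ P ∈ Dir ρ, P 1 1 ≠ 0 := by
    intro P hP h0
    have h1 := psd_qinf P hP.1 hP.2.1 h0
    rw [h1] at hP
    exact Set.disjoint_left.1 hdj hP hinf
  have hcont : ContinuousOn (fun P : Mat => (P 1 1)⁻¹) (Dir ρ) := by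
    apply ContinuousOn.inv₀
    · exact (continuous_apply_apply (1 : Fin 2) (1 : Fin 2)).continuousOn
    · exact h11
  obtain ⟨C, hC⟩ := hDc.exists_bound_of_continuousOn hcont
  have hTb : Bornology.IsBounded T := by
    apply (Metric.isBounded_closedBall (x := (0 : Pt)) (r := C + 1)).subset
    intro x hx
    have h1 := hC _ hx.2
    rw [pc_11, inv_inv, Complex.norm_real, Real.norm_eq_abs, abs_of_pos (pc_pos x)] at h1
    rw [mem_closedBall_zero_iff, Prod.norm_def]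
    apply max_le
    · nlinarith [sq_nonneg (‖x.1‖ - 1), sq_nonneg x.2, norm_nonneg x.1]
    · rw [Real.norm_eq_abs, abs_le]
      constructor <;> nlinarith [sq_nonneg (x.2 - 1), sq_nonneg (x.2 + 1), sq_nonneg ‖x.1‖]
  have hTk : IsCompact T := Metric.isCompact_of_isClosed_isBounded hTc hTb
  -- the points at infinity
  set T0 : Set ℂ := {z | (z, (0 : ℝ)) ∈ T} with hT0
  have hT0c : IsClosed T0 := hTc.preimage (continuous_id.prodMk continuous_const)
  have hT0k : IsCompact T0 := by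
    apply (hTk.image continuous_fst).of_isClosed_subset hT0c
    intro z hz
    exact ⟨(z, 0), hz, rfl⟩
  have hT0AB : T0 ⊆ A ∪ B := by
    intro z hz
    have h1 : Qp z ∈ Dir ρ := by
      rw [← pc_zero]
      exact hz.2
    have h2 : Qp z ∉ limitSet ρ := Set.disjoint_left.1 hdj h1
    have h3 : Qp z ∈ sph := (q3 z).1
    rw [hsph] at h3
    rcases h3 with (h3 | h3) | h3
    · exact absurd h3 h2
    · obtain ⟨w, hw, hwz⟩ := h3
      rw [← q7 hwz]
      exact Or.inl hw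
    · obtain ⟨w, hw, hwz⟩ := h3
      rw [← q7 hwz]
      exact Or.inr hw
  have hTA : T0 \ B ⊆ A := fun z hz => (hT0AB hz.1).resolve_right hz.2
  have hTB : T0 \ A ⊆ B := fun z hz => (hT0AB hz.1).resolve_left hz.2
  obtain ⟨KA, hKA, hKA1, hKA2⟩ := exists_compact_between (hT0k.diff hB) hA hTA
  obtain ⟨KB, hKB, hKB1, hKB2⟩ := exists_compact_between (hT0k.diff hA) hB hTB
  set U : Set Pt := (interior KA ×ˢ Iio (1 : ℝ)) ∪ (interior KB ×ˢ Iio (1 : ℝ)) with hU
  have hUo : IsOpen U := (isOpen_interior.prod isOpen_Iio).union (isOpen_interior.prod isOpen_Iio)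
  refine ⟨T \ U, KA, KB, 1, hTk.diff hUo, ?_, hKA, hKA2, hKB, hKB2, one_pos, ?_⟩
  · intro x hx
    have h1 : 0 ≤ x.2 := hx.1.1
    rcases h1.eq_or_lt with h2 | h2
    · exfalso
      apply hx.2
      have h3 : x.1 ∈ T0 := by
        change (x.1, (0 : ℝ)) ∈ T
        rw [h2]
        exact hx.1
      by_cases h4 : x.1 ∈ B
      · right
        refine ⟨hKB1 ⟨h3, fun h5 => Set.disjoint_left.1 hAB h5 h4⟩, ?_⟩
        change x.2 < 1
        rw [← h2]
        exact one_pos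
      · left
        refine ⟨hKA1 ⟨h3, h4⟩, ?_⟩
        change x.2 < 1
        rw [← h2]
        exact one_pos
    · exact h2
  · intro x hx
    obtain ⟨p1, p2⟩ := pc_pd hLMX x hx
    obtain ⟨γ, hγ, -⟩ := hDex (Pc x) p1 p2
    rw [pc_act hACT (ρ γ) x hx] at hγ
    have hy : ga (ρ γ) x ∈ up := (hACT.1 (ρ γ) x hx).2.1
    have hyT : ga (ρ γ) x ∈ T := ⟨le_of_lt hy, hγ⟩
    refine ⟨γ, ?_⟩
    by_cases h1 : ga (ρ γ) x ∈ U
    · rcases h1 with h1 | h1
      · exact Or.inr (Or.inl ⟨interior_subset h1.1, h1.2⟩)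
      · exact Or.inr (Or.inr ⟨interior_subset h1.1, h1.2⟩)
    · exact Or.inl ⟨hyT, h1⟩

end Pool.Agent.Helper95.QA
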